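import Pool.Agent.K3h40.EC.X9

/-!
# Directions in the ergodic components of local limits of eigenfunctions (MP_6b977f_mp)

The plane is `ℂ`; `dx f z`, `dy f z` are the partial derivatives `fderiv ℝ f z 1`,
`fderiv ℝ f z I`, `lap f = dx (dx f) + dy (dy f)`; `TF Ω φ` says that `φ : ℂ → ℝ` is smooth with
compact support in `Ω`; `Dp h f = h (∂x f - i ∂y f)`. The space `C(ℂ, ℝ)` of continuous functions
carries the topology of locally uniform convergence and its Borel sets. The definitions used in the
statement (local measures, quantum ergodicity, invariant events, spectral measures) are in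
`Pool.Agent.K3h40.EC.Defs`.

A limit point `μ` of the local measures of quantum ergodic eigenfunctions is the law of a
stationary wave `f`, which need not be ergodic: its ergodic components have a mass `m ≥ 0` and a
law `ν` of directions, both random. Quantum ergodicity only says something about the averages of
`m ν` over the components. The theorem is about the single components: weighted with `m²`, the law
of the angle between two independent directions of one component, restricted to pairs which are not
parallel, is at most the law for the isotropic wave. In particular it has a density, and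
`E[m² (1 - parallel ν)] ≤ 1`. No bound on any moment of order greater than two of the
eigenfunctions is assumed. The existence of `m` and `ν` is a part of the theorem.

Proof idea. (0) The random spectral measure is obtained from Bochner's theorem for the conditional
covariance function, in a measurable version, and it lives on the unit circle because the samples
are solutions. (1) The null quadratic forms `(∑ b_i |W_{2i}|²)²`, `∑ b_i = 0`, of the normalised
derivatives `W_k = (λ^{-1/2}(∂x - i∂y))^k u` have averages which converge, by compensated
compactness, to the value for the random wave, without bounds on the `L⁴` norms (the limit theorem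
`Pool.Agent.Y265.RW` of the starting files). (2) They are continuous functionals of the local
function by a mean value formula, hence by Fatou's lemma their expectation under `μ` is at most this
value. (3) For almost every sample `f` of `μ`, the dilations `f(t z)` are a sequence of solutions to
which the same limit theorem applies; its average gives the conditional expectation
`2 m² ∬ (∑ b_i cos 2i(α - β))² dν dν` as a lower bound. (4) The coefficients `b_i` are chosen as those
of a given cosine polynomial, minus a small constant spread over many frequencies, which by Wiener's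
theorem only affects the parallel pairs.
-/

set_option autoImplicit false
open MeasureTheory Filter Topology Complex ProbabilityTheory
open scoped ContDiff ENNReal

namespace Pool.Agent.Results.MP_6b977f_mp.AngleLaw

open Pool.Agent.K3h40.EC.Loc

/-- **Result.** Let `u n` be quantum ergodic solutions of `Δu + λ_n u = 0` on the open set
`Ω ⊆ ℝ²` of finite area and `μ` a limit point of their local measures. Then `μ` has a random
spectral measure `m ν`, and for all Borel sets `B` of real numbers with `1 ∉ B`,
`E[m² · (ν × ν)(cos 2(α - β) ∈ B)] ≤ (σ × σ)(cos 2(α - β) ∈ B)`,
where `σ` is the uniform law of the direction. -/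
theorem result [MeasurableSpace C(ℂ, ℝ)] [BorelSpace C(ℂ, ℝ)] (Ω : Set ℂ) (χ : ℝ → ℝ)
    (hχ : IsCutoff χ) (lam : ℕ → ℝ) (u : ℕ → ℂ → ℝ) (hu : IsQuantumErgodic Ω lam u)
    (μ : Measure C(ℂ, ℝ)) [IsProbabilityMeasure μ] (hμ : IsLocalLimit Ω χ lam u μ) :
    (∃ (m : C(ℂ, ℝ) → ℝ) (ν : Kernel C(ℂ, ℝ) ℝ), IsMarkovKernel ν ∧ IsSpectral μ m ν) ∧
    ∀ (m : C(ℂ, ℝ) → ℝ) (ν : Kernel C(ℂ, ℝ) ℝ), IsMarkovKernel ν → IsSpectral μ m ν →
      ∀ B : Set ℝ, MeasurableSet B → (1 : ℝ) ∉ B →
        ∫⁻ f, ENNReal.ofReal (m f ^ 2) *
            ((ν f).prod (ν f)) {p | Real.cos (2 * (p.1 - p.2)) ∈ B} ∂μ ≤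
          (uniform.prod uniform) {p | Real.cos (2 * (p.1 - p.2)) ∈ B} := by
  refine ⟨exists_spectral hχ hu hμ, fun m ν hM hν B hB h1 => ?_⟩
  obtain ⟨σ, hσ, hlim⟩ := hμ
  have H := qe hχ hu hσ
  have hW : Pool.Agent.K3h40.EC.WL Ω χ (fun n => lam (σ n)) (fun n => u (σ n)) μ := hlim
  exact Pool.Agent.K3h40.EC.part_dom H hW hν hB h1

end Pool.Agent.Results.MP_6b977f_mp.AngleLaw
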