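import Pool.Agent.K3h40.EC.X9

/-!
# Ergodic components of local limits of quantum ergodic eigenfunctions (MP_6b977f_mp)

The plane is `ℂ`; `dx f z`, `dy f z` are the partial derivatives `fderiv ℝ f z 1`,
`fderiv ℝ f z I`, `lap f = dx (dx f) + dy (dy f)`; `TF Ω φ` says that `φ : ℂ → ℝ` is smooth with
compact support in `Ω`; `Dp h f = h (∂x f - i ∂y f)`. The space `C(ℂ, ℝ)` of continuous functions
carries the topology of locally uniform convergence and its Borel sets. The definitions used in the
statement (local measures, quantum ergodicity, invariant events, spectral measures) are in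
`Pool.Agent.K3h40.EC.Defs`.

A limit point `μ` of the local measures of quantum ergodic eigenfunctions is the law of a
stationary wave, which need not be ergodic. Quantum ergodicity gives the two point function of `μ`,
that is, the average over the ergodic components of their two point functions. The theorem says
that the two point function of every single component is the one of the random wave, provided that
no mass is lost in the limit and that the laws of the directions of the components have no parallel
pairs (no plane waves are split off). Consequently, the only such limit point which is a mixture of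
Gaussian waves is the random wave. No bound on any moment of order greater than two of the
eigenfunctions is assumed.

Proof idea. The inequality of the file `AngleLaw` gives `E m² ≤ 1 = E m`, so `m = 1`; tested with
the functions `1 + cos 2kθ` it gives `E[3 + 4 |∫ e^{2ikα} dν|²] ≤ 3`, so that all even frequencies
of `ν` vanish, which are the ones seen by the covariance of a real wave.
-/

set_option autoImplicit false
open MeasureTheory Filter Topology Complex ProbabilityTheory
open scoped ContDiff ENNReal

namespace Pool.Agent.Results.MP_6b977f_mp.ErgodicComponents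

open Pool.Agent.K3h40.EC.Loc

noncomputable section

/-- the exponential `exp(i ∑ t_j f(x_j))` -/
def character {n : ℕ} (x : Fin n → ℂ) (t : Fin n → ℝ) (f : C(ℂ, ℝ)) : ℂ :=
  Complex.exp (((∑ j, t j * f (x j) : ℝ) : ℂ) * I)

/-- its expectation for a centred Gaussian field with covariance `E f(x) f(y) = C (x - y)` -/
def gaussCharacter (C : ℂ → ℝ) {n : ℕ} (x : Fin n → ℂ) (t : Fin n → ℝ) : ℂ :=
  ((Real.exp (-(1 / 2) * ∑ j, ∑ k, t j * t k * C (x j - x k)) : ℝ) : ℂ)

/-- **Result.** Let `u n` be quantum ergodic solutions of `Δu + λ_n u = 0` on the open set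
`Ω ⊆ ℝ²` of finite area and `μ` a limit point of their local measures. Then `μ` has a random
spectral measure `m ν`. Assume that `∫ f(0)² dμ = 1` (no loss of mass) and that almost surely
`m = 0` or `ν` has no parallel pairs. Then almost every ergodic component has mass `m = 1` and the
covariance function `J₀(|w|)`. In particular, if the conditional characteristic functions of `μ`
given the invariant events are those of Gaussian waves, then `μ` has the finite dimensional
distributions of the random wave. -/
theorem result [MeasurableSpace C(ℂ, ℝ)] [BorelSpace C(ℂ, ℝ)] (Ω : Set ℂ) (χ : ℝ → ℝ)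
    (hχ : IsCutoff χ) (lam : ℕ → ℝ) (u : ℕ → ℂ → ℝ) (hu : IsQuantumErgodic Ω lam u)
    (μ : Measure C(ℂ, ℝ)) [IsProbabilityMeasure μ] (hμ : IsLocalLimit Ω χ lam u μ) :
    (∃ (m : C(ℂ, ℝ) → ℝ) (ν : Kernel C(ℂ, ℝ) ℝ), IsMarkovKernel ν ∧ IsSpectral μ m ν) ∧
    ∀ (m : C(ℂ, ℝ) → ℝ) (ν : Kernel C(ℂ, ℝ) ℝ), IsMarkovKernel ν → IsSpectral μ m ν →
      ∫ f, f 0 ^ 2 ∂μ = 1 → (∀ᵐ f ∂μ, m f ≠ 0 → parallel (ν f) = 0) →
      (∀ᵐ f ∂μ, m f = 1 ∧ ∀ w : ℂ, cov (ν f) w = J₀ ‖w‖) ∧
      ((∀ (n : ℕ) (x : Fin n → ℂ) (t : Fin n → ℝ), μ[character x t | invariant μ] =ᵐ[μ]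
          fun f => gaussCharacter (fun w => m f * cov (ν f) w) x t) →
        ∀ (n : ℕ) (x : Fin n → ℂ) (t : Fin n → ℝ),
          ∫ f, character x t f ∂μ = gaussCharacter (fun w => J₀ ‖w‖) x t) := by
  refine ⟨exists_spectral hχ hu hμ, fun m ν hM hν hmass hpar => ?_⟩
  obtain ⟨σ, hσ, hlim⟩ := hμ
  have H := qe hχ hu hσ
  have hW : Pool.Agent.K3h40.EC.WL Ω χ (fun n => lam (σ n)) (fun n => u (σ n)) μ := hlim
  obtain ⟨m', ν', hM', hν', hpar', hmm⟩ := normalise hν hpar
  have key' := Pool.Agent.K3h40.EC.part_bes H hW hν' hmass hpar'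
  have key : ∀ᵐ f ∂μ, m f = 1 ∧ ∀ w : ℂ, cov (ν f) w = J₀ ‖w‖ := by
    filter_upwards [key', hmm] with f h1 h2
    have h3 : m f = 1 := by rw [← h2.1]; exact h1.1
    refine ⟨h3, fun w => ?_⟩
    rw [← h2.2 (by rw [h3]; exact one_ne_zero)]
    exact h1.2 w
  refine ⟨key, fun hG n x t => ?_⟩
  refine Pool.Agent.K3h40.EC.int_of_cond (inv_le' μ) ((hG n x t).trans ?_)
  filter_upwards [key] with f hf
  obtain ⟨k1, k2⟩ := hf
  unfold gaussCharacter
  simp only [k1, k2, one_mul]

end

end Pool.Agent.Results.MP_6b977f_mp.ErgodicComponents
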