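import Pool.Agent.K3h40.EC.X9

/-!
# Four point functions of local limits of quantum ergodic eigenfunctions (MP_6b977f_mp)

The plane is `ℂ`; `dx f z`, `dy f z` are the partial derivatives `fderiv ℝ f z 1`,
`fderiv ℝ f z I`, `lap f = dx (dx f) + dy (dy f)`; `TF Ω φ` says that `φ : ℂ → ℝ` is smooth with
compact support in `Ω`; `Dp h f = h (∂x f - i ∂y f)`. The space `C(ℂ, ℝ)` of continuous functions
carries the topology of locally uniform convergence and its Borel sets. The definitions used in the
statement (local measures, quantum ergodicity, invariant events, spectral measures) are in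
`Pool.Agent.K3h40.EC.Defs`.

The theorem is about the four point functions of a limit point `μ` of the local measures of quantum
ergodic eigenfunctions, without any hypothesis about the value of the fourth moment: it only has to
be finite. If no mass is lost in the limit and the laws of the directions of the ergodic components
have no parallel pairs, then all four point functions of `μ`, and of every ergodic component, are
those of the random wave. In particular `∫ f(0)⁴ dμ = 3`.

Proof idea. By the theorem of the file `ErgodicComponents` all the ergodic components have the two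
point function `J₀`. The conditional four point functions of a stationary wave without parallel
directions are given by Wick's formula from the conditional two point functions (starting file
`MP_4fa179_mp.ConditionalFourPoint`).
-/

set_option autoImplicit false
open MeasureTheory Filter Topology Complex ProbabilityTheory
open scoped ContDiff ENNReal

namespace Pool.Agent.Results.MP_6b977f_mp.FourPointLimits

open Pool.Agent.K3h40.EC.Loc

noncomputable section

/-- the four point function of the random wave -/
def wick (w : Fin 4 → ℂ) : ℝ :=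
  J₀ ‖w 0 - w 1‖ * J₀ ‖w 2 - w 3‖ + J₀ ‖w 0 - w 2‖ * J₀ ‖w 1 - w 3‖ +
    J₀ ‖w 0 - w 3‖ * J₀ ‖w 1 - w 2‖

/-- **Result.** Let `u n` be quantum ergodic solutions of `Δu + λ_n u = 0` on the open set
`Ω ⊆ ℝ²` of finite area and `μ` a limit point of their local measures. Then `μ` has a random
spectral measure `m ν`. Assume that `∫ f(0)² dμ = 1` (no loss of mass), that almost surely `m = 0`
or `ν` has no parallel pairs, and that `∫ f(0)⁴ dμ` is finite. Then for all points `w 0, …, w 3` the
expectation of `f(w 0) f(w 1) f(w 2) f(w 3)`, also the conditional one given the invariant events,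
is the one of the random wave. -/
theorem result [MeasurableSpace C(ℂ, ℝ)] [BorelSpace C(ℂ, ℝ)] (Ω : Set ℂ) (χ : ℝ → ℝ)
    (hχ : IsCutoff χ) (lam : ℕ → ℝ) (u : ℕ → ℂ → ℝ) (hu : IsQuantumErgodic Ω lam u)
    (μ : Measure C(ℂ, ℝ)) [IsProbabilityMeasure μ] (hμ : IsLocalLimit Ω χ lam u μ) :
    (∃ (m : C(ℂ, ℝ) → ℝ) (ν : Kernel C(ℂ, ℝ) ℝ), IsMarkovKernel ν ∧ IsSpectral μ m ν) ∧
    ∀ (m : C(ℂ, ℝ) → ℝ) (ν : Kernel C(ℂ, ℝ) ℝ), IsMarkovKernel ν → IsSpectral μ m ν →
      ∫ f, f 0 ^ 2 ∂μ = 1 → (∀ᵐ f ∂μ, m f ≠ 0 → parallel (ν f) = 0) →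
      Integrable (fun f : C(ℂ, ℝ) => f 0 ^ 4) μ → ∀ w : Fin 4 → ℂ,
        μ[fun f => ∏ i, f (w i) | invariant μ] =ᵐ[μ] (fun _ => wick w) ∧
          ∫ f, ∏ i, f (w i) ∂μ = wick w := by
  refine ⟨exists_spectral hχ hu hμ, fun m ν hM hν hmass hpar hfour w => ?_⟩
  obtain ⟨σ, hσ, hlim⟩ := hμ
  have H := qe hχ hu hσ
  have hW : Pool.Agent.K3h40.EC.WL Ω χ (fun n => lam (σ n)) (fun n => u (σ n)) μ := hlim
  obtain ⟨m', ν', hM', hν', hpar', hmm⟩ := normalise hν hpar
  have key := Pool.Agent.K3h40.EC.part_bes H hW hν' hmass hpar'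
  have h1 : μ[fun f => ∏ i, f (w i) | invariant μ] =ᵐ[μ] (fun _ => wick w) := by
    refine (Pool.Agent.K3h40.EC.part_four H hW hν' hpar' hfour w).trans ?_
    filter_upwards [key] with f hf
    obtain ⟨k1, k2⟩ := hf
    rw [k1, one_pow, one_mul]
    unfold Pool.Agent.Results.MP_6b977f_mp.FourPointFunctions.gauss
    simp only [k2]
    rfl
  refine ⟨h1, ?_⟩
  rw [← integral_condExp (inv_le' μ), integral_congr_ae h1]
  simp

end

end Pool.Agent.Results.MP_6b977f_mp.FourPointLimits
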