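import Pool.Agent.K3h55.PW.R
import Pool.Agent.Y265.RW.Fn1

/-!
# The power spectrum of the squares of quantum ergodic eigenfunctions (MP_6b977f_mp)

The plane is `ℂ`; `dx f z`, `dy f z` are the partial derivatives `fderiv ℝ f z 1`,
`fderiv ℝ f z I`, `lap f = dx (dx f) + dy (dy f)`; `TF Ω φ` says that `φ : ℂ → ℝ` is smooth with
compact support contained in `Ω`; `Dp h f = h (∂x f - i ∂y f)`.

Let `u n` be real solutions of `Δu + λ_n u = 0` on the open set `Ω`, `λ_n → ∞`, which are quantum
ergodic on `Ω`, in the microlocal form: for all test functions `φ` and all `k`,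
`∫ φ u (λ^{-1/2}(∂x - i∂y))^k u → δ_{k0} ∫ φ`. Let `V i` be any orthonormal basis of `L²(Ω)` of
smooth functions with `ΔV_i + μ_i V_i = 0` in `Ω`, `μ_i ≥ 0`; no boundary condition is used, the basis
may be, for example, the one of the `u n` themselves, or the one for other boundary conditions. The
theorem describes the expansion `φ u_n² = ∑ c_i V_i`, `c_i = ∫ φ u_n² V_i`, of the square of the
eigenfunction: the distribution of the mass `∑ c_i² = ∫ φ² u_n⁴` over the scaled frequencies
`r = μ_i / λ_n`. For the random wave of unit variance the square has, as the limit of this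
distribution, the measure `(δ_0 + law of 2 - 2 cos θ, twice) ∫ φ²`, `θ` uniform: two momenta of the
length `√λ` at the angle `θ` have a difference of squared length `λ (2 - 2 cos θ)`, and the distribution
function at `a` is `1 + (2 / π) arccos (1 - a / 2)`. The total mass is `3 ∫ φ²`. Let
`d_n = ∫ φ² u_n⁴ - 3 ∫ φ²` be the (unknown, possibly unbounded) defect of the local fourth moment.

* the distribution function at each `a ≠ 4` is the one of the random wave plus `(2/3) d_n` for
  `a < 4` and plus `d_n` for `a > 4`, up to `o(1)`: all of the defect sits at the frequencies `0` and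
  `4` (twice the frequency of `u_n`), in the ratio `2 : 1`;
* there is no mass above `4`, even with any power of the frequency as a weight;
* all individual coefficients with frequencies away from `0` and `4` tend to zero uniformly. For
  example `∫ φ u_n² u_m → 0` as `n → ∞`, uniformly in `m` with `δ ≤ λ_m / λ_n ≤ 4 - δ` or
  `4 + δ ≤ λ_m / λ_n`, for all `δ > 0`.

No bound of the fourth moments is assumed, and all the errors are `o(1)`, not `o(∫ u_n⁴)`.

Proof idea. (1) With `h = λ^{-1/2}`, `W_k = (h(∂x - i∂y))^k u` for `k ≥ 0` etc., one has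
`T_j(1 + h²Δ/2)(φ u²) = (-1)^j φ W_j W_{-j}` plus terms `h ψ W_a W_b`, with the Chebyshev polynomials
`T_j`. (2) By Green's and Parseval's formulas `∑ T_j(1 - r_i/2) c_i²` is the integral of this times
`φ u²`. The error terms vanish because of `h |W_k|² → 0` locally uniformly, and the fourth moments
`∫ φ² u² W_j W_{-j}` are known up to `d_n` (both facts are in the starting files). (3) The functions
which vanish of second order at `r = 0` and `r = 4` do not see `d_n`; the method of moments with the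
weight `r² (4 - r)²`, applied to the difference of a transition function and a cubic polynomial, gives
the distribution functions.
-/

set_option autoImplicit false
open MeasureTheory Filter Topology Complex
open scoped ContDiff

namespace Pool.Agent.Results.MP_6b977f_mp.PowerSpectrum

open Pool.Agent.W745.RW (TF dx dy lap Dp)

/-- the coefficient of `φ u²` in the expansion with respect to `V` -/
noncomputable def coef {ι : Type*} (Ω : Set ℂ) (V : ι → ℂ → ℝ) (φ u : ℂ → ℝ) (i : ι) : ℝ :=
  ∫ z in Ω, φ z * u z ^ 2 * V i z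

/-- the defect of the local fourth moment -/
noncomputable def defect (φ u : ℂ → ℝ) : ℝ := (∫ z, φ z ^ 2 * u z ^ 4) - 3 * ∫ z, φ z ^ 2

/-- **Result.** The power spectrum of the squares of quantum ergodic eigenfunctions. -/
theorem result (Ω : Set ℂ) (hΩ : IsOpen Ω) (lam : ℕ → ℝ) (u : ℕ → ℂ → ℝ)
    (hpos : ∀ n, 0 < lam n) (hlam : Tendsto lam atTop atTop)
    (hu : ∀ n, ContDiffOn ℝ ∞ (u n) Ω)
    (heq : ∀ n, ∀ z ∈ Ω, lap (u n) z + lam n * u n z = 0)
    (hqe : ∀ φ, TF Ω φ → ∀ k : ℕ, Tendsto (fun n => ∫ z, (φ z : ℂ) *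
      ((u n z : ℂ) * (Dp (1 / √(lam n)))^[k] (fun w => (u n w : ℂ)) z)) atTop
      (𝓝 (if k = 0 then ((∫ z, φ z : ℝ) : ℂ) else 0)))
    -- an orthonormal basis of eigenfunctions
    {ι : Type} (b : HilbertBasis ι ℝ (Lp ℝ 2 (volume.restrict Ω))) (V : ι → ℂ → ℝ) (μ : ι → ℝ)
    (hb : ∀ i, (b i : ℂ → ℝ) =ᵐ[volume.restrict Ω] V i)
    (hV : ∀ i, ContDiffOn ℝ ∞ (V i) Ω)
    (hVeq : ∀ i, ∀ z ∈ Ω, lap (V i) z + μ i * V i z = 0) (hμ : ∀ i, 0 ≤ μ i)
    (φ : ℂ → ℝ) (hφ : TF Ω φ) :
    -- the total mass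
    (∀ n, HasSum (fun i => coef Ω V φ (u n) i ^ 2) (∫ z, φ z ^ 2 * u n z ^ 4)) ∧
    -- the distribution function of the mass
    (∀ a : ℝ, 0 < a → a ≠ 4 → Tendsto (fun n =>
      (∑' i, if μ i < a * lam n then coef Ω V φ (u n) i ^ 2 else 0) -
        (if a < 4 then 2 / 3 else 1) * defect φ (u n)) atTop
      (𝓝 ((1 + 2 / Real.pi * Real.arccos (1 - a / 2)) * ∫ z, φ z ^ 2))) ∧
    -- the tail
    (∀ a : ℝ, 4 < a → ∀ k : ℕ,
      (∀ n, Summable fun i =>
        if a * lam n ≤ μ i then (μ i / lam n) ^ k * coef Ω V φ (u n) i ^ 2 else 0) ∧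
      Tendsto (fun n =>
        ∑' i, if a * lam n ≤ μ i then (μ i / lam n) ^ k * coef Ω V φ (u n) i ^ 2 else 0) atTop
        (𝓝 0)) ∧
    -- the individual coefficients
    (∀ δ : ℝ, 0 < δ → ∀ ε : ℝ, 0 < ε → ∀ᶠ n in atTop, ∀ i,
      ((δ * lam n ≤ μ i ∧ μ i ≤ (4 - δ) * lam n) ∨ (4 + δ) * lam n ≤ μ i) →
      |coef Ω V φ (u n) i| ≤ ε) := by
  have hS := Pool.Agent.Y265.RW.raw_sys Ω lam u hpos hlam hu heq hqe
  have H := Pool.Agent.K3h55.PW.dat hΩ hS hφ hu hb hV hVeq hμ
  have h2 : ∀ n, (1 / √(lam n)) ^ 2 = 1 / lam n := fun n => by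
    rw [div_pow, Real.sq_sqrt (hpos n).le, one_pow]
  have hcf : ∀ n i, Pool.Agent.K3h55.PW.cf Ω V (fun z => φ z * u n z ^ 2) i =
      coef Ω V φ (u n) i := fun n i => rfl
  have tf : ∀ n, TF Ω (fun z => φ z * u n z ^ 2) := fun n =>
    Pool.Agent.TH294.RS.TF.mulc hΩ hφ ((hu n).pow 2)
  have hx : ∀ n i, 1 - (1 / √(lam n)) ^ 2 * μ i / 2 = 1 - μ i / lam n / 2 := fun n i => by
    rw [h2]; ring
  simp only [hx, hcf] at H
  have iff1 : ∀ a : ℝ, ∀ n i, (1 - μ i / lam n / 2 ≤ -(a / 2 - 1)) ↔ a * lam n ≤ μ i := by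
    intro a n i
    rw [← le_div_iff₀ (hpos n)]
    constructor <;> intro h <;> linarith
  have s1 : ∀ a : ℝ, 4 < a → ∀ (k : ℕ) (n : ℕ),
      Summable (fun i => (if 1 - μ i / lam n / 2 ≤ -(a / 2 - 1) then
        |1 - μ i / lam n / 2| ^ k else 0) * coef Ω V φ (u n) i ^ 2) := by
    intro a _ k n
    refine H.dom (F := fun t => if t ≤ -(a / 2 - 1) then |t| ^ k else 0)
      (1 + Polynomial.X ^ (2 * k)) (fun t _ => ?_) n
    have e1 : (1 + Polynomial.X ^ (2 * k) : Polynomial ℝ).eval t = 1 + (t ^ 2) ^ k := by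
      simp [pow_mul]
    rw [e1]
    have e2 : |t| ^ k ≤ 1 + (t ^ 2) ^ k := by
      rw [← sq_abs, ← pow_mul, mul_comm 2 k, pow_mul]
      nlinarith [sq_nonneg (|t| ^ k - 1), pow_nonneg (abs_nonneg t) k]
    split_ifs
    · rwa [abs_of_nonneg (by positivity)]
    · rw [abs_zero]; positivity
  have le : ∀ a : ℝ, 4 < a → ∀ (k : ℕ) (n : ℕ), ∀ i,
      (if a * lam n ≤ μ i then (μ i / lam n) ^ k * coef Ω V φ (u n) i ^ 2 else 0) ≤
      4 ^ k * ((if 1 - μ i / lam n / 2 ≤ -(a / 2 - 1) then
      |1 - μ i / lam n / 2| ^ k else 0) * coef Ω V φ (u n) i ^ 2) := by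
    intro a ha k n i
    by_cases h : a * lam n ≤ μ i
    · rw [if_pos h, if_pos ((iff1 a n i).2 h), ← mul_assoc, ← mul_pow]
      refine mul_le_mul_of_nonneg_right ?_ (sq_nonneg _)
      have h3 := (iff1 a n i).2 h
      have h4 : 0 ≤ μ i / lam n := div_nonneg (hμ i) (hpos n).le
      refine pow_le_pow_left₀ h4 ?_ k
      rw [abs_of_nonpos (by linarith)]
      linarith
    · rw [if_neg h, if_neg (fun h' => h ((iff1 a n i).1 h'))]
      simp
  have nn : ∀ (a : ℝ) (k n : ℕ) (i : ι),
      0 ≤ (if a * lam n ≤ μ i then (μ i / lam n) ^ k * coef Ω V φ (u n) i ^ 2 else 0) := by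
    intro a k n i
    split_ifs
    · have := div_nonneg (hμ i) (hpos n).le
      positivity
    · exact le_refl _
  have tail : ∀ a : ℝ, 4 < a → ∀ k : ℕ,
      (∀ n, Summable fun i =>
        if a * lam n ≤ μ i then (μ i / lam n) ^ k * coef Ω V φ (u n) i ^ 2 else 0) ∧
      Tendsto (fun n =>
        ∑' i, if a * lam n ≤ μ i then (μ i / lam n) ^ k * coef Ω V φ (u n) i ^ 2 else 0) atTop
        (𝓝 0) := by
    intro a ha k
    have sm : ∀ n, Summable fun i =>
        if a * lam n ≤ μ i then (μ i / lam n) ^ k * coef Ω V φ (u n) i ^ 2 else 0 := fun n =>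
      Summable.of_nonneg_of_le (nn a k n) (le a ha k n) ((s1 a ha k n).mul_left _)
    refine ⟨sm, ?_⟩
    have l := (H.E2 (y₀ := a / 2 - 1) (by linarith) k).const_mul ((4 : ℝ) ^ k)
    rw [mul_zero] at l
    refine squeeze_zero (fun n => tsum_nonneg fun i => nn a k n i) (fun n => ?_) l
    rw [← tsum_mul_left]
    exact Summable.tsum_le_tsum (le a ha k n) (sm n) ((s1 a ha k n).mul_left _)
  have iffa : ∀ a : ℝ, ∀ n i, (1 - a / 2 < 1 - μ i / lam n / 2) ↔ μ i < a * lam n := by
    intro a n i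
    rw [← div_lt_iff₀ (hpos n)]
    constructor <;> intro h <;> linarith
  have hsum : ∀ a : ℝ, ∀ n, (∑' i, if μ i < a * lam n then coef Ω V φ (u n) i ^ 2 else 0) =
      ∑' i, (if 1 - a / 2 < 1 - μ i / lam n / 2 then 1 else 0) * coef Ω V φ (u n) i ^ 2 := by
    intro a n
    refine tsum_congr fun i => ?_
    simp only [iffa a n i]
    split_ifs <;> ring
  refine ⟨fun n => ?_, fun a ha ha4 => ?_, tail, fun δ hδ ε hε => ?_⟩
  · have := Pool.Agent.K3h55.PW.parseval hb (tf n) (tf n)
    have e : ∫ z, φ z * u n z ^ 2 * (φ z * u n z ^ 2) = ∫ z, φ z ^ 2 * u n z ^ 4 := by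
      congr 1; funext z; ring
    rw [e] at this
    refine this.congr_fun fun i => ?_
    rw [hcf, sq]
  · simp only [hsum]
    rcases lt_or_gt_of_ne ha4 with h4 | h4
    · simp only [if_pos h4]
      exact (H.E3 (y := 1 - a / 2) (by linarith) (by linarith)).2
    · simp only [if_neg (not_lt.2 h4.le), one_mul]
      have := (H.E3' (y := 1 - a / 2) (by linarith)).2
      have e : (1 + 2 / Real.pi * Real.arccos (1 - a / 2)) * ∫ z, φ z ^ 2 =
          3 * ∫ z, φ z ^ 2 := by
        rw [Real.arccos_of_le_neg_one (by linarith)]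
        have := Real.pi_pos.ne'
        field_simp
        ring
      rw [e]
      exact this
  · have k1 := H.E4 (a := -1 + δ / 2) (b := 1 - δ / 2) (by linarith) (by linarith)
      (e := ε ^ 2) (by positivity)
    have k2 := (tail (4 + δ) (by linarith) 0).2.eventually (gt_mem_nhds (show 0 < ε ^ 2 by positivity))
    filter_upwards [k1, k2] with n g1 g2 i hi
    have hl := hpos n
    refine abs_le_of_sq_le_sq' ?_ hε.le |> abs_le.2
    rcases hi with ⟨h3, h4⟩ | h3
    · refine g1 i ⟨?_, ?_⟩
      · have : μ i / lam n ≤ 4 - δ := by rw [div_le_iff₀ hl]; exact h4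
        linarith
      · have : δ ≤ μ i / lam n := by rw [le_div_iff₀ hl]; exact h3
        linarith
    · have s1 : Summable (fun i => coef Ω V φ (u n) i ^ 2) := by
        have := (Pool.Agent.K3h55.PW.parseval hb (tf n) (tf n)).summable
        refine this.congr fun i => ?_
        rw [hcf, sq]
      have s2 : Summable (fun i => if (4 + δ) * lam n ≤ μ i then
          (μ i / lam n) ^ 0 * coef Ω V φ (u n) i ^ 2 else 0) := by
        refine Summable.of_nonneg_of_le (fun i => ?_) (fun i => ?_) s1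
        · split_ifs
          · rw [pow_zero, one_mul]; positivity
          · exact le_refl _
        · split_ifs
          · rw [pow_zero, one_mul]
          · positivity
      have h5 := s2.le_tsum i fun j _ => by
        split_ifs
        · rw [pow_zero, one_mul]; positivity
        · exact le_refl _
      rw [if_pos h3, pow_zero, one_mul] at h5
      exact h5.trans g2.le

end Pool.Agent.Results.MP_6b977f_mp.PowerSpectrum
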